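import Mathlib

namespace Pool.Agent.Results.MP_49a735_an.LargeStep

open Polynomial

noncomputable def D (l : ℝ) (q : ℂ[X]) : ℂ[X] :=
  C (1 / (2 * (l : ℂ))) * (taylor (l : ℂ) q - taylor (-(l : ℂ)) q)

lemma D_eval (l : ℝ) (q : ℂ[X]) (w : ℂ) :
    (D l q).eval w = (q.eval (w + l) - q.eval (w - l)) / (2 * (l : ℂ)) := by
  rw [D, eval_mul, eval_C, eval_sub, taylor_eval, taylor_eval, ← sub_eq_add_neg]
  ring

lemma D_deg (l : ℝ) (hl : l ≠ 0) (q : ℂ[X]) (d : ℕ) (hd : q.natDegree = d + 1) :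
    d ≤ (D l q).natDegree := by
  apply le_natDegree_of_ne_zero
  have hl' : (l : ℂ) ≠ 0 := by exact_mod_cast hl
  have h1 : (hasseDeriv d q).natDegree ≤ 1 := (natDegree_hasseDeriv_le q d).trans (by omega)
  have h2 := eq_X_add_C_of_natDegree_le_one h1
  have h3 : (hasseDeriv d q).coeff 1 ≠ 0 := by
    rw [hasseDeriv_coeff]
    apply mul_ne_zero
    · exact_mod_cast (Nat.choose_pos (by omega)).ne'
    · rw [show 1 + d = q.natDegree by omega]
      exact leadingCoeff_ne_zero.2 (by rintro rfl; simp at hd)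
  rw [D, coeff_C_mul, coeff_sub, taylor_coeff, taylor_coeff, h2]
  simp only [eval_add, eval_mul, eval_C, eval_X]
  have : 1 / (2 * (l : ℂ)) * ((hasseDeriv d q).coeff 1 * l + (hasseDeriv d q).coeff 0 -
      ((hasseDeriv d q).coeff 1 * -l + (hasseDeriv d q).coeff 0)) = (hasseDeriv d q).coeff 1 := by
    field_simp; ring
  rw [this]; exact h3

lemma nlt (z r : ℂ) (a : ℝ) (h : 0 < a * (z - r).re) : ‖z - a - r‖ < ‖z + a - r‖ := by
  rw [← sq_lt_sq₀ (norm_nonneg _) (norm_nonneg _), Complex.sq_norm, Complex.sq_norm,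
    Complex.normSq_apply, Complex.normSq_apply]
  simp only [Complex.sub_re, Complex.add_re, Complex.ofReal_re, Complex.sub_im, Complex.add_im,
    Complex.ofReal_im] at h ⊢
  nlinarith

lemma prod_lt {ι : Type} (s : Multiset ι) (f g : ι → ℂ) (hle : ∀ i ∈ s, ‖f i‖ ≤ ‖g i‖)
    (hg : ∀ i ∈ s, g i ≠ 0) (hlt : ∃ i ∈ s, ‖f i‖ < ‖g i‖) :
    ‖(s.map f).prod‖ < ‖(s.map g).prod‖ := by
  classical
  obtain ⟨i, hi, hlt⟩ := hlt
  obtain ⟨t, rfl⟩ := Multiset.exists_cons_of_mem hi
  have h1 : ∀ t : Multiset ι, (∀ j ∈ t, ‖f j‖ ≤ ‖g j‖) → ‖(t.map f).prod‖ ≤ ‖(t.map g).prod‖ := by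
    intro t
    induction t using Multiset.induction_on with
    | empty => simp
    | cons a t ih =>
      intro h
      simp only [Multiset.map_cons, Multiset.prod_cons, norm_mul]
      exact mul_le_mul (h a (Multiset.mem_cons_self _ _))
        (ih fun j hj => h j (Multiset.mem_cons_of_mem hj)) (norm_nonneg _) (norm_nonneg _)
  have h2 : 0 < ‖(t.map g).prod‖ := by
    rw [norm_pos_iff]
    apply Multiset.prod_ne_zero
    intro h
    obtain ⟨j, hj, e⟩ := Multiset.mem_map.1 h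
    exact hg j (Multiset.mem_cons_of_mem hj) e
  simp only [Multiset.map_cons, Multiset.prod_cons, norm_mul]
  calc ‖f i‖ * ‖(t.map f).prod‖ ≤ ‖f i‖ * ‖(t.map g).prod‖ :=
        mul_le_mul_of_nonneg_left (h1 t fun j hj => hle j (Multiset.mem_cons_of_mem hj))
          (norm_nonneg _)
    _ < ‖g i‖ * ‖(t.map g).prod‖ := mul_lt_mul_of_pos_right hlt h2

lemma key (q : ℂ[X]) (hd : 1 ≤ q.natDegree) (hq : ∀ r, q.eval r = 0 → r.re = 0) (a : ℝ) (z : ℂ)
    (h : 0 < a * z.re) : ‖q.eval (z - a)‖ < ‖q.eval (z + a)‖ := by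
  have hs := IsAlgClosed.splits q
  have hq0 : q ≠ 0 := by rintro rfl; simp at hd
  rw [hs.eval_eq_prod_roots, hs.eval_eq_prod_roots, norm_mul, norm_mul]
  apply mul_lt_mul_of_pos_left _ (norm_pos_iff.2 (leadingCoeff_ne_zero.2 hq0))
  have hr : ∀ r ∈ q.roots, ‖z - a - r‖ < ‖z + a - r‖ := by
    intro r hr
    apply nlt
    rw [Complex.sub_re, hq r ((mem_roots hq0).1 hr), sub_zero]; exact h
  apply prod_lt q.roots (fun r => z - a - r) (fun r => z + a - r)
  · exact fun r h => (hr r h).le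
  · intro r h
    exact norm_pos_iff.1 ((norm_nonneg _).trans_lt (hr r h))
  · have : q.roots ≠ 0 := by
      intro h0
      have := hs.natDegree_eq_card_roots
      rw [h0] at this; simp at this; omega
    obtain ⟨r, h⟩ := Multiset.exists_mem_of_ne_zero this
    exact ⟨r, h, hr r h⟩

lemma zero_of (l : ℝ) (hl : l ≠ 0) (f : ℂ → ℂ) (z : ℂ)
    (H : ∀ a : ℝ, |a| = |l| → 0 < a * z.re → ‖f (z - a)‖ < ‖f (z + a)‖)
    (h : (f (z + l) - f (z - l)) / (2 * (l : ℂ)) = 0) : z.re = 0 := by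
  have hl' : (l : ℂ) ≠ 0 := by exact_mod_cast hl
  have e : f (z + l) = f (z - l) := by
    rcases div_eq_zero_iff.1 h with h | h
    · exact sub_eq_zero.1 h
    · exact absurd h (mul_ne_zero two_ne_zero hl')
  by_contra hz
  rcases lt_or_gt_of_ne (mul_ne_zero hl hz) with h1 | h1
  · have := H (-l) (abs_neg l) (by linarith)
    rw [Complex.ofReal_neg, sub_neg_eq_add, ← sub_eq_add_neg, e] at this
    exact lt_irrefl _ this
  · have := H l rfl h1
    rw [e] at this
    exact lt_irrefl _ this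

noncomputable def P (N : ℕ) : ℂ[X] := ∏ k ∈ Finset.Icc (-(N : ℤ)) (N : ℤ), (X - C (k : ℂ))

lemma P_eval (N : ℕ) (w : ℂ) :
    (P N).eval w = ∏ k ∈ Finset.Icc (-(N : ℤ)) (N : ℤ), (w - (k : ℂ)) := by
  simp only [P, eval_prod, eval_sub, eval_X, eval_C]

lemma P_deg (N : ℕ) : (P N).natDegree = 2 * N + 1 := by
  rw [P, natDegree_finset_prod_X_sub_C_eq_card, Int.card_Icc]; omega

lemma first (N : ℕ) (a : ℝ) (ha : (N : ℝ) ≤ |a|) (z : ℂ) (h : 0 < a * z.re) :
    ‖(P N).eval (z - a)‖ < ‖(P N).eval (z + a)‖ := by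
  rw [P_eval, P_eval]
  have e : ∏ k ∈ Finset.Icc (-(N : ℤ)) (N : ℤ), (z + a - (k : ℂ))
      = ∏ k ∈ Finset.Icc (-(N : ℤ)) (N : ℤ), (z + a + (k : ℂ)) := by
    apply Finset.prod_nbij' (fun k => -k) (fun k => -k)
    · intro k hk; simp only [Finset.mem_Icc] at *; omega
    · intro k hk; simp only [Finset.mem_Icc] at *; omega
    · intro k _; simp
    · intro k _; simp
    · intro k _; push_cast; ring
  rw [e, Finset.prod_eq_multiset_prod, Finset.prod_eq_multiset_prod]
  have hz : z.re ≠ 0 := by rintro h0; rw [h0] at h; simp at h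
  have hk : ∀ k ∈ Finset.Icc (-(N : ℤ)) (N : ℤ), 0 ≤ (a + k) * z.re := by
    intro k hk
    rw [Finset.mem_Icc] at hk
    have h1 : -(N : ℝ) ≤ k := by exact_mod_cast hk.1
    have h2 : (k : ℝ) ≤ N := by exact_mod_cast hk.2
    rcases lt_or_gt_of_ne hz with hz | hz
    · have : a < 0 := by by_contra hh; push Not at hh; nlinarith
      rw [abs_of_neg this] at ha; nlinarith
    · have : 0 < a := by by_contra hh; push Not at hh; nlinarith
      rw [abs_of_pos this] at ha; nlinarith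
  apply prod_lt _ (fun k : ℤ => z - a - (k : ℂ)) (fun k : ℤ => z + a + (k : ℂ))
  · intro k hk'
    have := hk k hk'
    rw [← sq_le_sq₀ (norm_nonneg _) (norm_nonneg _), Complex.sq_norm, Complex.sq_norm,
      Complex.normSq_apply, Complex.normSq_apply]
    simp only [Complex.sub_re, Complex.add_re, Complex.ofReal_re, Complex.sub_im, Complex.add_im,
      Complex.ofReal_im, Complex.intCast_re, Complex.intCast_im]
    nlinarith
  · intro k hk' h0
    have := hk k hk'
    have h1 := congrArg Complex.re h0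
    simp only [Complex.add_re, Complex.ofReal_re, Complex.intCast_re, Complex.zero_re] at h1
    have h2 : a + k = -z.re := by linarith
    rw [h2] at this
    have : 0 < z.re * z.re := mul_self_pos.2 hz
    nlinarith
  · refine ⟨0, by simp, ?_⟩
    have := nlt z 0 a (by simpa using h)
    simpa using this

lemma iter (N : ℕ) (l : ℝ) (hl : l ≠ 0) (hN : (N : ℝ) ≤ |l|) (n : ℕ) (hn : n + 1 ≤ 2 * N + 1) :
    2 * N + 1 - (n + 1) ≤ ((D l)^[n + 1] (P N)).natDegree ∧
      ∀ z, ((D l)^[n + 1] (P N)).eval z = 0 → z.re = 0 := by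
  induction n with
  | zero =>
    refine ⟨?_, fun z hz => ?_⟩
    · simpa using D_deg l hl (P N) (2 * N) (P_deg N)
    · rw [zero_add, Function.iterate_one, D_eval] at hz
      exact zero_of l hl (fun w => (P N).eval w) z
        (fun a ha h => first N a (ha ▸ hN) z h) hz
  | succ n ih =>
    obtain ⟨h1, h2⟩ := ih (by omega)
    rw [Function.iterate_succ_apply']
    set q := (D l)^[n + 1] (P N)
    refine ⟨?_, fun z hz => ?_⟩
    · have := D_deg l hl q (q.natDegree - 1) (by omega)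
      omega
    · rw [D_eval] at hz
      exact zero_of l hl (fun w => q.eval w) z (fun a _ h => key q (by omega) h2 a z h) hz

/-- For a real step `l ≠ 0` with `|l| ≥ N` and `1 ≤ n ≤ 2N+1`, every zero of the `n`-fold center
divided difference of `p_N` is purely imaginary. -/
theorem result :
    ∀ N : ℕ, ∀ l : ℝ, l ≠ 0 → (N : ℝ) ≤ |l| → ∀ n : ℕ, 1 ≤ n → n ≤ 2 * N + 1 → ∀ z : ℂ,
      ((fun (f : ℂ → ℂ) (w : ℂ) =>
          if l = 0 then deriv f w
          else (f (w + (l : ℂ)) - f (w - (l : ℂ))) / (2 * (l : ℂ)))^[n]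
        (fun w : ℂ => ∏ k ∈ Finset.Icc (-(N : ℤ)) (N : ℤ), (w - (k : ℂ)))) z = 0 →
      z.re = 0 := by
  intro N l hl hN n h1 hn z hz
  have e : ∀ m : ℕ, ((fun (f : ℂ → ℂ) (w : ℂ) =>
          if l = 0 then deriv f w
          else (f (w + (l : ℂ)) - f (w - (l : ℂ))) / (2 * (l : ℂ)))^[m]
        (fun w : ℂ => ∏ k ∈ Finset.Icc (-(N : ℤ)) (N : ℤ), (w - (k : ℂ))))
        = fun w => ((D l)^[m] (P N)).eval w := by
    intro m
    induction m with
    | zero => funext w; simp [P_eval]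
    | succ m ih =>
      rw [Function.iterate_succ_apply', ih, Function.iterate_succ_apply']
      funext w
      rw [if_neg hl, D_eval]
  rw [e] at hz
  obtain ⟨m, rfl⟩ : ∃ m, n = m + 1 := ⟨n - 1, by omega⟩
  exact (iter N l hl hN m hn).2 z hz

end Pool.Agent.Results.MP_49a735_an.LargeStep
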